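import Mathlib

set_option autoImplicit false

namespace Pool.Agent.Results.MP_f1fe0b_lc.Counter

section defs
variable {n : ℕ} {A : Fin n → Type} (r : Fin n → (∀ i, A i) → ℝ)

def Sat (a : ∀ i, A i) (i : Fin n) : Prop := ∀ b : A i, r i (Function.update a i b) ≤ r i a

def StrictSat (a : ∀ i, A i) (i : Fin n) : Prop :=
  ∀ b : A i, b ≠ a i → r i (Function.update a i b) < r i a

def SubgamesStrict : Prop :=
  ∀ (N : Finset (Fin n)) (a₀ : ∀ i, A i), ∃ a : ∀ i, A i,
    (∀ i, i ∉ N → a i = a₀ i) ∧ ∀ i ∈ N, StrictSat r a i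

def Edge (a a' : ∀ i, A i) : Prop := ∀ i, Sat r a i → a' i = a i

def GenWeaklyAcyclic : Prop :=
  ∀ a : ∀ i, A i, ∃ a', Relation.ReflTransGen (Edge r) a a' ∧ ∀ i, Sat r a' i

end defs

def code (a : Fin 4 → Fin 2) : ℕ := 8 * a 0 + 4 * a 1 + 2 * a 2 + a 3

def tb (i : Fin 4) (a : Fin 4 → Fin 2) : ℕ :=
  (Nat.testBit (![58905, 50040, 25449, 42329] i) (code a)).toNat

theorem cl : ∀ a b : Fin 4 → Fin 2,
    (∀ i, (∀ c : Fin 2, tb i (Function.update a i c) ≤ tb i a) → b i = a i) →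
    Nat.testBit 58193 (code a) = true → Nat.testBit 58193 (code b) = true := by decide +kernel

theorem ne : ∀ a : Fin 4 → Fin 2, Nat.testBit 58193 (code a) = true →
    ¬ ∀ i, ∀ c : Fin 2, tb i (Function.update a i c) ≤ tb i a := by decide +kernel

theorem result :
    ¬ ∀ (n : ℕ) (A : Fin n → Type) [∀ i, Fintype (A i)] [∀ i, Nonempty (A i)]
      (r : Fin n → (∀ i, A i) → ℝ), SubgamesStrict r → GenWeaklyAcyclic r := by
  intro h
  obtain ⟨a, h1, h2⟩ := h 4 (fun _ => Fin 2) (fun i a => (tb i a : ℝ)) (by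
    simp only [SubgamesStrict, StrictSat, Nat.cast_lt]
    decide +kernel) fun _ => 0
  have k : Nat.testBit 58193 (code a) = true := by
    clear h2
    induction h1 with
    | refl => decide
    | tail _ e ih =>
      simp only [Edge, Sat, Nat.cast_le] at e
      exact cl _ _ e ih
  simp only [Sat, Nat.cast_le] at h2
  exact ne a k h2

end Pool.Agent.Results.MP_f1fe0b_lc.Counter
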